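import Pool.Agent.HBL.Crit

/-!
# MP_838612_al: the counterexample in its strongest form, part A

`crit`: the criterion of `HBL/Crit` with one group `H` for all laws in the first `n` letters.
-/

set_option autoImplicit false

namespace Pool.Agent.NFI

open Pool.Agent.HBL

/-- The words in the letters `x_i`, `i < n`. -/
def Words (n : ℕ) : Subgroup (FreeGroup ℕ) :=
  Subgroup.closure (FreeGroup.of '' {i | i < n})

theorem trunc (n : ℕ) (w : F) (hw : w ∈ Words n) (H : Type) [Group H] (f : ℕ → H) :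
    FreeGroup.lift f w = FreeGroup.lift (fun i => if i < n then f i else 1) w := by
  unfold Words at hw
  induction hw using Subgroup.closure_induction with
  | mem x hx =>
    obtain ⟨i, hi, rfl⟩ := hx
    have hi' : i < n := hi
    simp [hi']
  | one => simp
  | mul x y _ _ hx hy => rw [map_mul, map_mul, hx, hy]
  | inv x _ hx => rw [map_inv, map_inv, hx]

theorem crit (Q A : Type) [Group Q] [AddCommGroup A] [DistribMulAction Q A]
    (e : ℕ) (hepos : 0 < e) (hQ : ∀ q : Q, q ^ e = 1)
    (n : ℕ) (P : Type) [Group P] (B : Type) [AddCommGroup B] [DistribMulAction P B]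
    (hlaw : ∀ w : F, (∀ φ : F →* Q, φ w = 1) → ∀ φ : F →* P, φ w = 1)
    (hloc : ∀ g : ℕ → P, (∀ i, n ≤ i → g i = 1) → ∀ u : F →₀ ℤ, Kills Q A u →
      ∀ b : B, ev (FreeGroup.lift g) u b = 0)
    (hbad : ∃ u : F →₀ ℤ, Kills Q A u ∧ ∃ (φ : F →* P) (b : B), ev φ u b ≠ 0) :
    (∀ w ∈ Words n,
      (∀ f : ℕ → SD (Q × Multiplicative (ZMod (e + 1))) (Fn (Multiplicative (ZMod (e + 1))) A),
        FreeGroup.lift f w = 1) →
      ∀ f : ℕ → SD (P × Multiplicative (ZMod (e + 1))) (Fn (Multiplicative (ZMod (e + 1))) B),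
        FreeGroup.lift f w = 1) ∧
    ∃ w,
      (∀ f : ℕ → SD (Q × Multiplicative (ZMod (e + 1))) (Fn (Multiplicative (ZMod (e + 1))) A),
        FreeGroup.lift f w = 1) ∧
      ¬ ∀ f : ℕ → SD (P × Multiplicative (ZMod (e + 1))) (Fn (Multiplicative (ZMod (e + 1))) B),
        FreeGroup.lift f w = 1 := by
  classical
  let C : Type := Multiplicative (ZMod (e + 1))
  haveI : NeZero (e + 1) := ⟨by omega⟩
  haveI : Finite C := inferInstanceAs (Finite (ZMod (e + 1)))
  have hC : ∀ c : C, c ^ (e + 1) = 1 := by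
    intro c
    have h1 : (e + 1) • (Multiplicative.toAdd c : ZMod (e + 1)) = 0 := by
      rw [nsmul_eq_mul]
      simp
    exact congrArg Multiplicative.ofAdd h1
  obtain ⟨κ, hκ, φ0, b0, hne⟩ := hbad
  -- the laws in `n` letters hold in `H`
  have hH : ∀ w ∈ Words n, (∀ f : ℕ → SD (Q × C) (Fn C A), FreeGroup.lift f w = 1) →
      ∀ f : ℕ → SD (P × C) (Fn C B), FreeGroup.lift f w = 1 := by
    intro w hw hlw f
    rw [trunc n w hw (SD (P × C) (Fn C B)) f]
    have hg : ∀ i, n ≤ i → ((fun i => if i < n then f i else 1) i).g = 1 := by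
      intro i hi
      simp [show ¬ i < n by omega]
    generalize (fun i => if i < n then f i else 1) = f' at hg
    apply lift_eq_one_of_fox
    · -- law of `P × C`
      have hwQC : ∀ φ : F →* Q × C, φ w = 1 := law_g w hlw
      have h1 : ∀ φ : F →* Q, φ w = 1 := fun φ => by
        have := hwQC (φ.prod 1)
        exact congrArg Prod.fst this
      have h2 : ∀ φ : F →* C, φ w = 1 := fun φ => by
        have := hwQC ((1 : F →* Q).prod φ)
        exact congrArg Prod.snd this
      have h3 := hlaw w h1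
      refine Prod.ext ?_ ?_
      · exact h3 ((MonoidHom.fst P C).comp (FreeGroup.lift fun i => (f' i).g))
      · exact h2 ((MonoidHom.snd P C).comp (FreeGroup.lift fun i => (f' i).g))
    · intro x b
      apply ev_marker (Q := Q) (A := A) (fox w x) (kills_fox w hlw x)
      intro u' hu' b'
      have hh : (MonoidHom.fst P C).comp (FreeGroup.lift fun i => (f' i).g) =
          FreeGroup.lift fun i => ((f' i).g).1 := by
        ext1 i
        simp
      rw [hh]
      exact hloc _ (fun i hi => by rw [hg i hi]; rfl) u' hu' b'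
  -- the special law
  let θ : F →* F := FreeGroup.lift fun i => (FreeGroup.of (i + 2)) ^ (e + 1)
  let v : F := FreeGroup.of 0 * (FreeGroup.of 1) ^ e * (FreeGroup.of 0)⁻¹ * ((FreeGroup.of 1) ^ e)⁻¹
  have hG : ∀ f : ℕ → SD (Q × C) (Fn C A), FreeGroup.lift f (wordOf θ v κ) = 1 := by
    intro f
    have hv : (FreeGroup.lift f v).g = 1 := by
      simp only [v, map_mul, map_inv, map_pow, FreeGroup.lift_apply_of, SD.mul_g, SD.inv_g]
      have hpow : ((f 1) ^ e).g = (1, (f 1).g.2 ^ e) := by
        have : ((f 1) ^ e).g = (f 1).g ^ e := map_pow (SD.pr : SD (Q × C) (Fn C A) →* Q × C) (f 1) e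
        rw [this]
        refine Prod.ext ?_ ?_
        · exact hQ _
        · rfl
      show (f 0).g * ((f 1) ^ e).g * ((f 0).g)⁻¹ * (((f 1) ^ e).g)⁻¹ = 1
      rw [hpow]
      refine Prod.ext ?_ ?_
      · show (f 0).g.1 * 1 * ((f 0).g.1)⁻¹ * (1 : Q)⁻¹ = 1
        simp
      · show (f 0).g.2 * (f 1).g.2 ^ e * ((f 0).g.2)⁻¹ * ((f 1).g.2 ^ e)⁻¹ = 1
        rw [mul_comm (f 0).g.2 ((f 1).g.2 ^ e), mul_inv_cancel_right, mul_inv_cancel]
    rw [map_wordOf _ _ _ _ hv]
    have hφ : (SD.pr.comp (FreeGroup.lift f)).comp θ =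
        (FreeGroup.lift fun i => (f (i + 2)).g.1).prod 1 := by
      ext1 i
      refine Prod.ext ?_ ?_
      · show ((FreeGroup.lift f (θ (FreeGroup.of i))).g).1 = _
        simp only [θ, FreeGroup.lift_apply_of, map_pow]
        have : ((f (i + 2)) ^ (e + 1)).g = (f (i + 2)).g ^ (e + 1) :=
          map_pow (SD.pr : SD (Q × C) (Fn C A) →* Q × C) (f (i + 2)) (e + 1)
        rw [this]
        show (f (i + 2)).g.1 ^ (e + 1) = _
        rw [pow_succ, hQ, one_mul]
        simp
      · show ((FreeGroup.lift f (θ (FreeGroup.of i))).g).2 = _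
        simp only [θ, FreeGroup.lift_apply_of, map_pow]
        have : ((f (i + 2)) ^ (e + 1)).g = (f (i + 2)).g ^ (e + 1) :=
          map_pow (SD.pr : SD (Q × C) (Fn C A) →* Q × C) (f (i + 2)) (e + 1)
        rw [this]
        show (f (i + 2)).g.2 ^ (e + 1) = _
        rw [hC]
        rfl
    rw [hφ]
    refine SD.ext ?_ ?_
    · show ev _ κ _ = 0
      funext x
      rw [ev_fn_apply]
      show _ = (0 : A)
      have := hκ (FreeGroup.lift fun i => (f (i + 2)).g.1) ((FreeGroup.lift f v).v x)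
      rw [← this]
      unfold ev
      refine Finsupp.sum_congr fun w _ => ?_
      show κ w • ((FreeGroup.lift fun i => (f (i + 2)).g.1) w • (FreeGroup.lift f v).v (x * 1)) = _
      rw [mul_one]
    · rfl
  -- it fails in `H`
  let c0 : C := Multiplicative.ofAdd (1 : ZMod (e + 1))
  let Fb : Fn C B := fun x => if x = 1 then b0 else 0
  let f : ℕ → SD (P × C) (Fn C B) := fun i =>
    match i with
    | 0 => ⟨Fb, 1⟩
    | 1 => ⟨0, (1, c0)⟩
    | (j + 2) => ⟨0, (φ0 (FreeGroup.of j), 1)⟩
  have hP : ∀ p : P, p ^ e = 1 := by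
    intro p
    have := hlaw ((FreeGroup.of 0) ^ e) (fun φ => by rw [map_pow, hQ])
      (FreeGroup.lift fun _ => p)
    simpa using this
  refine ⟨hH, wordOf θ v κ, hG, fun hlw => ?_⟩
  have hfail := hlw f
  have hz : (f 1) ^ e = ⟨0, (1, c0 ^ e)⟩ := by
    have h1 : f 1 = SD.inc ((1 : P), c0) := rfl
    rw [h1, ← map_pow]
    refine SD.ext ?_ ?_
    · rfl
    · show ((1 : P), c0) ^ e = _
      refine Prod.ext ?_ ?_
      · show (1 : P) ^ e = 1
        simp
      · rfl
  have hvH : FreeGroup.lift f v = ⟨Fb - ((1 : P), c0 ^ e) • Fb, 1⟩ := by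
    simp only [v, map_mul, map_inv, map_pow, FreeGroup.lift_apply_of]
    rw [hz]
    have hf0 : f 0 = ⟨Fb, 1⟩ := rfl
    rw [hf0]
    refine SD.ext ?_ ?_
    · simp only [SD.mul_v, SD.mul_g, SD.inv_v, SD.inv_g, inv_one, one_smul, mul_one, one_mul,
        smul_zero, neg_zero, add_zero, smul_neg, sub_eq_add_neg]
    · simp only [SD.mul_g, SD.inv_g, inv_one, mul_one, one_mul, mul_inv_cancel]
  have hv1 : (FreeGroup.lift f v).g = 1 := by rw [hvH]
  rw [map_wordOf _ _ _ _ hv1] at hfail
  have hval := congrFun (congrArg SD.v hfail) (1 : C)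
  have hφ : (SD.pr.comp (FreeGroup.lift f)).comp θ = φ0.prod 1 := by
    ext1 i
    have h2 : f (i + 2) = ⟨0, (φ0 (FreeGroup.of i), 1)⟩ := rfl
    have h3 : ((f (i + 2)) ^ (e + 1)).g = (f (i + 2)).g ^ (e + 1) :=
      map_pow (SD.pr : SD (P × C) (Fn C B) →* P × C) (f (i + 2)) (e + 1)
    refine Prod.ext ?_ ?_
    · show ((FreeGroup.lift f (θ (FreeGroup.of i))).g).1 = _
      simp only [θ, FreeGroup.lift_apply_of, map_pow]
      rw [h3, h2]
      show (φ0 (FreeGroup.of i)) ^ (e + 1) = _
      rw [pow_succ, hP, one_mul]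
      rfl
    · show ((FreeGroup.lift f (θ (FreeGroup.of i))).g).2 = _
      simp only [θ, FreeGroup.lift_apply_of, map_pow]
      rw [h3, h2]
      show (1 : C) ^ (e + 1) = _
      simp
  simp only [hφ] at hval
  rw [ev_fn_apply] at hval
  rw [hvH] at hval
  have hc0 : (c0 ^ e : C) ≠ 1 := by
    intro h0
    have h1 : c0 = 1 := by
      have := hC c0
      rw [pow_succ, h0, one_mul] at this
      exact this
    have h2 : (1 : ZMod (e + 1)) = 0 := congrArg Multiplicative.toAdd h1
    haveI : Fact (1 < e + 1) := ⟨by omega⟩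
    exact one_ne_zero h2
  apply hne
  have hb1 : (Fb - ((1 : P), c0 ^ e) • Fb) (1 : C) = b0 := by
    rw [fn_sub_apply, fn_smul_apply]
    have h5 : Fb 1 = b0 := if_pos rfl
    have h6 : Fb (1 * c0 ^ e) = 0 := if_neg (by rw [one_mul]; exact hc0)
    show Fb 1 - (1 : P) • Fb (1 * c0 ^ e) = b0
    rw [h5, h6, smul_zero, sub_zero]
  have h0 : ((1 : SD (P × C) (Fn C B)).v) (1 : C) = 0 := rfl
  rw [h0] at hval
  unfold ev
  rw [← hval]
  refine Finsupp.sum_congr fun w _ => ?_
  show κ w • (φ0 w • b0) = κ w • (φ0 w • (Fb - ((1 : P), c0 ^ e) • Fb) (1 * 1))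
  rw [mul_one, hb1]


/-- the local property for the module generated by a function -/
theorem gen_local (Q A : Type) [Group Q] [AddCommGroup A] [DistribMulAction Q A] (n : ℕ)
    (P : Type) [Group P] (k : Type) [AddCommGroup k] (f : P → k)
    (hloc : ∀ g : ℕ → P, (∀ i, n + 1 ≤ i → g i = 1) → ∀ u : F →₀ ℤ, Kills Q A u →
        (u.sum fun w c => c • f (FreeGroup.lift g w)) = 0)
    (hbad : ∃ u : F →₀ ℤ, Kills Q A u ∧ ∃ φ : F →* P, (u.sum fun w c => c • f (φ w)) ≠ 0) :
    (∀ g : ℕ → P, (∀ i, n ≤ i → g i = 1) → ∀ u : F →₀ ℤ, Kills Q A u →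
      ∀ b : gen (f : FnP P k), ev (FreeGroup.lift g) u b = 0) ∧
    (∃ u : F →₀ ℤ, Kills Q A u ∧ ∃ (φ : F →* P) (b : gen (f : FnP P k)), ev φ u b ≠ 0) := by
  classical
  obtain ⟨κ, hκ, φ0, hne⟩ := hbad
  refine ⟨?_, ?_⟩
  · intro g hg u hu b
    obtain ⟨b, hb⟩ := b
    apply Subtype.ext
    rw [ev_gen_val]
    show ev (FreeGroup.lift g) u b = (0 : FnP P k)
    unfold gen at hb
    induction hb using AddSubgroup.closure_induction with
    | mem x hx =>
      obtain ⟨g0, rfl⟩ := hx
      funext h0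
      rw [ev_fnP_apply]
      show (u.sum fun w c => c • f (h0 * FreeGroup.lift g w * g0)) = (0 : k)
      -- truncation and one more variable
      let τ : F →* F := FreeGroup.lift fun i => if i < n then FreeGroup.of i else 1
      let u' : F →₀ ℤ := u.mapDomain fun w => FreeGroup.of n * τ w
      have hu' : Kills Q A u' := by
        intro φ a
        have h1 := hu (φ.comp τ) a
        have h2 : ev φ u' a = φ (FreeGroup.of n) • ev (φ.comp τ) u a := by
          unfold ev
          simp only [u']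
          rw [Finsupp.sum_mapDomain_index (h := fun (w : F) (c : ℤ) => c • (φ w • a))
            (by intro _; exact zero_smul _ _) (by intro _ _ _; exact add_smul _ _ _)]
          unfold Finsupp.sum
          rw [Finset.smul_sum]
          refine Finset.sum_congr rfl fun w _ => ?_
          show u w • (φ (FreeGroup.of n * τ w) • a) = φ (FreeGroup.of n) • (u w • (φ (τ w) • a))
          rw [map_mul, mul_smul, smul_comm]
        rw [h2, h1, smul_zero]
      let p : ℕ → P := fun i => if i < n then g0⁻¹ * g i * g0 else if i = n then h0 * g0 else 1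
      have h3 := hloc p (fun i hi => by
        simp [p, show ¬ i < n by omega, show ¬ i = n by omega]) u' hu'
      have h4 : ∀ w : F, FreeGroup.lift p (τ w) = g0⁻¹ * FreeGroup.lift g w * g0 := by
        intro w
        have : (FreeGroup.lift p).comp τ =
            (MulAut.conj g0⁻¹).toMonoidHom.comp (FreeGroup.lift g) := by
          ext1 i
          by_cases hi : i < n
          · simp [τ, p, hi]
          · simp [τ, hi, hg i (by omega)]
        have h5 := DFunLike.congr_fun this w
        simpa using h5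
      simp only [u'] at h3
      rw [Finsupp.sum_mapDomain_index (h := fun (w : F) (c : ℤ) => c • f (FreeGroup.lift p w))
            (by intro _; exact zero_smul _ _) (by intro _ _ _; exact add_smul _ _ _)] at h3
      rw [← h3]
      refine Finsupp.sum_congr fun w _ => ?_
      congr 2
      rw [map_mul, h4]
      simp [p, mul_assoc]
    | zero => exact ev_zero_right _ _
    | add x y _ _ hx hy => rw [ev_add_right, hx, hy, add_zero]
    | neg x _ hx => rw [ev_neg_right, hx, neg_zero]
  · refine ⟨κ, hκ, φ0, ⟨f, AddSubgroup.subset_closure ⟨1, one_smul _ _⟩⟩, fun h0 => hne ?_⟩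
    have h1 : ((ev φ0 κ (⟨f, AddSubgroup.subset_closure ⟨1, one_smul _ _⟩⟩ :
        gen (f : FnP P k)) : gen (f : FnP P k)) : FnP P k) 1 =
        ((0 : gen (f : FnP P k)) : FnP P k) 1 := by rw [h0]
    rw [ev_gen_val, ev_fnP_apply] at h1
    have h2 : ((0 : gen (f : FnP P k)) : FnP P k) 1 = 0 := rfl
    rw [h2] at h1
    rw [← h1]
    refine Finsupp.sum_congr fun w _ => ?_
    rw [one_mul]


end Pool.Agent.NFI
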