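import Pool.Agent.NFI.InsA
import Pool.Agent.NFB.Main

/-!
# MP_838612_al: the counterexample in its strongest form, part B

The group is the restricted (= regular, the top group being finite) wreath product `ℤ ≀ K`,
`K = Q × ℤ/13`, `|K| = 98304 · 13`.
-/

set_option autoImplicit false

namespace Pool.Agent.NFI

open Pool.Agent.HBL

/-! ## The finite group `K` -/

/-- cyclic group of order 13 -/
abbrev C13 : Type := Multiplicative (ZMod (12 + 1))

/-- the top group -/
abbrev KK : Type := NFB.QQ × C13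

theorem ee_sq : ∀ x y : NFB.EE, x * y = 1 → x * x = 1 := by decide

theorem ee_two : ∀ x : NFB.EE, x + x = 0 := by decide

theorem qq_u (u : NFB.EEˣ × NFB.C3) : u ^ 6 = 1 := by
  refine Prod.ext ?_ ?_
  · show u.1 ^ 6 = 1
    have h : u.1 * u.1 = 1 := by
      apply Units.ext
      exact ee_sq u.1 _ u.1.mul_inv
    have : u.1 ^ 6 = (u.1 * u.1) ^ 3 := by
      rw [← pow_two, ← pow_mul]
    rw [this, h, one_pow]
  · show u.2 ^ 6 = 1
    have h : ∀ c : NFB.C3, c ^ 6 = 1 := by decide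
    exact h _

theorem qq_pow (q : NFB.QQ) : q ^ 12 = 1 := by
  have h6 : (q ^ 6).u = 1 := by
    have h1 : (q ^ 6).u = q.u ^ 6 := map_pow (NFB.SD.proj _) q 6
    rw [h1, qq_u]
  have h12 : q ^ 12 = q ^ 6 * q ^ 6 := by rw [← pow_add]
  rw [h12]
  refine NFB.SD.ext ?_ ?_
  · rw [NFB.SD.mul_m, h6, map_one]
    funext i c
    exact ee_two _
  · rw [NFB.SD.mul_u, h6, one_mul]
    rfl

theorem card_ee : Nat.card NFB.EE = 16 := by
  rw [Nat.card_eq_fintype_card]
  decide

theorem card_eeu : Nat.card NFB.EEˣ = 8 := by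
  rw [Nat.card_eq_fintype_card]
  decide +kernel

theorem card_qq : Nat.card NFB.QQ = 98304 := by
  have e : NFB.QQ ≃ (Unit → NFB.C3 → NFB.EE) × (NFB.EEˣ × NFB.C3) :=
    { toFun := fun x => (x.m, x.u)
      invFun := fun p => ⟨p.1, p.2⟩
      left_inv := fun _ => rfl
      right_inv := fun _ => rfl }
  have h3 : Nat.card NFB.C3 = 3 := by
    rw [Nat.card_eq_fintype_card]
    rfl
  rw [Nat.card_congr e, Nat.card_prod, Nat.card_prod, Nat.card_fun, Nat.card_fun, card_ee,
    card_eeu, h3, Nat.card_unique]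
  norm_num

theorem card_kk : Nat.card KK = 1277952 := by
  have h13 : Nat.card C13 = 13 := by
    rw [Nat.card_eq_fintype_card]
    rfl
  rw [Nat.card_prod, card_qq, h13]

/-! ## The wreath product -/

/-- the group in the form used by the criterion -/
abbrev GS : Type := HBL.SD (NFB.QQ × C13) (Fn C13 (NFB.RegM NFB.QQ))

/-- `ℤ ≀ K` -/
abbrev GW : Type := (Multiplicative ℤ) ≀ᵣ KK

/-- the value of an element of `ℤ[Q]` -/
def rv (a : NFB.RegM NFB.QQ) (y : NFB.QQ) : ℤ := (show NFB.QQ →₀ ℤ from a) y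

theorem rv_smul (q : NFB.QQ) (a : NFB.RegM NFB.QQ) (y : NFB.QQ) :
    rv (q • a) y = rv a (q⁻¹ * y) := by
  unfold rv
  rw [NFB.regM_smul]
  have h := Finsupp.mapDomain_apply (mul_right_injective q) (show NFB.QQ →₀ ℤ from a) (q⁻¹ * y)
  rw [mul_inv_cancel_left] at h
  exact h

theorem rv_add (a b : NFB.RegM NFB.QQ) (y : NFB.QQ) : rv (a + b) y = rv a y + rv b y :=
  Finsupp.add_apply _ _ _

theorem rv_ext (a b : NFB.RegM NFB.QQ) (h : ∀ y, rv a y = rv b y) : a = b :=
  Finsupp.ext h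

/-- the element of `ℤ[Q]` with given values -/
noncomputable def mk (f : NFB.QQ → ℤ) : NFB.RegM NFB.QQ :=
  (Finsupp.equivFunOnFinite.symm f : NFB.QQ →₀ ℤ)

theorem rv_mk (f : NFB.QQ → ℤ) (y : NFB.QQ) : rv (mk f) y = f y := rfl

/-- the isomorphism -/
noncomputable def iso : GS ≃* GW where
  toFun s := ⟨fun k => Multiplicative.ofAdd (rv (s.v k.2⁻¹) k.1), s.g⟩
  invFun w := ⟨fun c => mk (fun q : NFB.QQ => Multiplicative.toAdd (w.left (q, c⁻¹))), w.right⟩
  left_inv s := by
    refine HBL.SD.ext ?_ rfl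
    funext c
    refine rv_ext _ _ fun q => ?_
    show rv (s.v c⁻¹⁻¹) q = rv (s.v c) q
    rw [inv_inv]
  right_inv w := by
    refine RegularWreathProduct.ext ?_ rfl
    funext k
    show w.left (k.1, k.2⁻¹⁻¹) = w.left k
    rw [inv_inv]
  map_mul' s t := by
    refine RegularWreathProduct.ext ?_ rfl
    funext k
    show Multiplicative.ofAdd (rv (s.v k.2⁻¹ + (s.g • t.v) k.2⁻¹) k.1)
      = Multiplicative.ofAdd (rv (s.v k.2⁻¹) k.1) *
        Multiplicative.ofAdd (rv (t.v (s.g.2⁻¹ * k.2)⁻¹) (s.g.1⁻¹ * k.1))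
    rw [← ofAdd_add, rv_add, fn_smul_apply, rv_smul, mul_inv_rev, inv_inv]

/-! ## Finite generation -/

theorem fg_wreath (K : Type) [Group K] [Finite K] : Group.FG ((Multiplicative ℤ) ≀ᵣ K) := by
  classical
  haveI := Fintype.ofFinite K
  let ι : (K → Multiplicative ℤ) →* (Multiplicative ℤ) ≀ᵣ K :=
    { toFun := fun f => ⟨f, 1⟩
      map_one' := rfl
      map_mul' := fun f g => by
        refine RegularWreathProduct.ext ?_ ?_
        · funext x
          simp
        · simp }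
  let S : Set ((Multiplicative ℤ) ≀ᵣ K) :=
    Set.range (fun k : K => (⟨1, k⟩ : (Multiplicative ℤ) ≀ᵣ K)) ∪
      Set.range (fun x : K => ι (Pi.mulSingle x (Multiplicative.ofAdd 1)))
  refine Group.fg_iff.mpr ⟨S, ?_, (Set.finite_range _).union (Set.finite_range _)⟩
  rw [eq_top_iff]
  intro w _
  have h1 : w = ι w.left * ⟨1, w.right⟩ := by
    refine RegularWreathProduct.ext ?_ ?_
    · funext x
      simp [ι]
    · simp [ι]
  rw [h1]
  refine mul_mem ?_ (Subgroup.subset_closure (Or.inl ⟨w.right, rfl⟩))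
  show w.left ∈ (Subgroup.closure S).comap ι
  rw [← Finset.univ_prod_mulSingle w.left]
  refine prod_mem fun x _ => ?_
  have h2 : (Pi.mulSingle x (w.left x) : K → Multiplicative ℤ) =
      (Pi.mulSingle x (Multiplicative.ofAdd 1)) ^ (Multiplicative.toAdd (w.left x)) := by
    have h3 : w.left x = (Multiplicative.ofAdd 1) ^ (Multiplicative.toAdd (w.left x)) := by
      rw [← ofAdd_zsmul]
      simp
    have h4 := map_zpow (MonoidHom.mulSingle (fun _ : K => Multiplicative ℤ) x)
      (Multiplicative.ofAdd 1) (Multiplicative.toAdd (w.left x))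
    rw [← h3] at h4
    exact h4
  rw [h2]
  refine zpow_mem ?_ _
  exact Subgroup.subset_closure (Or.inr ⟨x, rfl⟩)

/-- the base group is abelian, normal and of finite index -/
theorem base_wreath (K : Type) [Group K] [Finite K] :
    ∃ A : Subgroup ((Multiplicative ℤ) ≀ᵣ K), A.Normal ∧ A.FiniteIndex ∧
      ∀ a ∈ A, ∀ b ∈ A, a * b = b * a := by
  refine ⟨(RegularWreathProduct.rightHom : (Multiplicative ℤ) ≀ᵣ K →* K).ker, inferInstance, ?_, ?_⟩
  · haveI : Finite (RegularWreathProduct.rightHom : (Multiplicative ℤ) ≀ᵣ K →* K).range :=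
      inferInstance
    exact Subgroup.finiteIndex_ker _
  · intro a ha b hb
    have ha' : a.right = 1 := ha
    have hb' : b.right = 1 := hb
    refine RegularWreathProduct.ext ?_ ?_
    · funext x
      simp [ha', hb', mul_comm]
    · simp [ha', hb']

/-! ## Finiteness of the witnesses -/

instance (n : ℕ) : Finite (NFB.RR n) := by
  refine Finite.of_injective (fun x : NFB.RR n => (x.a, x.b, x.c)) ?_
  intro x y h
  exact NFB.RR.ext (congrArg Prod.fst h) (congrArg (fun p => p.2.1) h)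
    (congrArg (fun p => p.2.2) h)

instance (N n : ℕ) : Finite (NFB.GamN N n) := by
  haveI : Finite (Fin N → NFB.C3 → NFB.RR n) := inferInstance
  haveI : Finite (Multiplicative (Fin n → ZMod 2)) := inferInstance
  haveI : Finite (Multiplicative (Fin n → ZMod 2) × NFB.C3) := inferInstance
  refine Finite.of_injective (fun x : NFB.GamN N n => (x.m, x.u)) ?_
  intro x y h
  exact NFB.SD.ext (congrArg Prod.fst h) (congrArg Prod.snd h)

instance (P B : Type) [Finite P] [Finite B] : Finite (HBL.SD P B) := by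
  refine Finite.of_injective (fun x : HBL.SD P B => (x.v, x.g)) ?_
  intro x y h
  exact HBL.SD.ext (congrArg Prod.fst h) (congrArg Prod.snd h)

instance (C A : Type) [Finite C] [Finite A] : Finite (Fn C A) :=
  inferInstanceAs (Finite (C → A))

instance (P k : Type) [Finite P] [Finite k] : Finite (FnP P k) :=
  inferInstanceAs (Finite (P → k))

/-! ## The witnesses -/

theorem key (n : ℕ) : ∃ (H : Type) (_ : Group H), Finite H ∧
    (∀ w ∈ Words n, (∀ f : ℕ → GW, FreeGroup.lift f w = 1) →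
      ∀ f : ℕ → H, FreeGroup.lift f w = 1) ∧
    ∃ w : F, (∀ f : ℕ → GW, FreeGroup.lift f w = 1) ∧
      ¬ ∀ f : ℕ → H, FreeGroup.lift f w = 1 := by
  have hN : 3 ≤ 3 * (n + 1) + 3 := by omega
  obtain ⟨Al, hloc, hval⟩ := NFB.sec2 (3 * (n + 1) + 3) hN
  have hval' : ∀ e : Fin (3 * (n + 1) + 3) → Fin (3 * (n + 1) + 3 + 2) × Fin (3 * (n + 1) + 3 + 2),
      Al (fun i => NFB.dot (NFB.dl (e i).1) (NFB.dl (e i).2)) = NFB.F0 (3 * (n + 1) + 3) e := by
    intro e
    by_cases he : ∀ i, (e i).1 ≠ (e i).2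
    · exact hval e he
    · push Not at he
      obtain ⟨i, hi⟩ := he
      rw [NFB.F0_loop e i hi]
      refine Al.map_coord_zero i ?_
      funext d
      have : NFB.dot (NFB.dl (e i).1) (NFB.dl (e i).2) d = 0 := by
        rw [hi, NFB.dot, mul_comm, CharTwo.add_self_eq_zero]
      exact this
  have hbad : ∃ u : F →₀ ℤ, Kills NFB.QQ (NFB.RegM NFB.QQ) u ∧
      ∃ φ : F →* NFB.GamN (3 * (n + 1) + 3) (3 * (n + 1) + 3 + 2),
        (u.sum fun w c => c • NFB.ff Al (φ w)) ≠ 0 := by
    refine ⟨NFB.uu (NFB.kappa (3 * (n + 1) + 3)),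
      NFB.globQ _ (NFB.kappa_rel_br (3 * (n + 1) + 3) hN), ?_⟩
    obtain ⟨φ, hφ⟩ := NFB.globP Al (NFB.kappa (3 * (n + 1) + 3))
    refine ⟨φ, ?_⟩
    rw [hφ]
    have h1 : ((NFB.kappa (3 * (n + 1) + 3)).map fun p => ((p.1 : ℤ) : ZMod 2)
            * Al (fun i => NFB.dot (NFB.dl (p.2 i).1) (NFB.dl (p.2 i).2))).sum
        = ((NFB.kappa (3 * (n + 1) + 3)).map fun p =>
            ((p.1 : ℤ) : ZMod 2) * NFB.F0 (3 * (n + 1) + 3) p.2).sum := by
      congr 1
      refine List.map_congr_left fun p _ => ?_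
      rw [hval' p.2]
    rw [h1, NFB.kappa_F0 (3 * (n + 1) + 3) hN]
    exact one_ne_zero
  obtain ⟨hl, hb⟩ := gen_local NFB.QQ (NFB.RegM NFB.QQ) n
    (NFB.GamN (3 * (n + 1) + 3) (3 * (n + 1) + 3 + 2)) (ZMod 2) (NFB.ff Al)
    (fun g hg u hu => NFB.loc (n + 1) (by omega) Al hloc g hg u hu) hbad
  obtain ⟨h1, w, hw1, hw2⟩ := crit NFB.QQ (NFB.RegM NFB.QQ) 12 (by norm_num) qq_pow n
    (NFB.GamN (3 * (n + 1) + 3) (3 * (n + 1) + 3 + 2)) (gen (NFB.ff Al : FnP _ (ZMod 2)))
    (fun w hw φ => NFB.sep _ _ _ fun χ => hw (χ.comp φ)) hl hb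
  have htr : ∀ w : F, (∀ f : ℕ → GW, FreeGroup.lift f w = 1) ↔
      (∀ f : ℕ → GS, FreeGroup.lift f w = 1) := by
    intro w
    constructor
    · intro h f
      have h2 := h (fun i => iso (f i))
      have h3 : (iso.toMonoidHom.comp (FreeGroup.lift f)) =
          FreeGroup.lift (fun i => iso (f i)) := by
        ext1 i
        simp
      rw [← h3] at h2
      exact iso.injective (h2.trans (map_one iso).symm)
    · intro h f
      have h2 := h (fun i => iso.symm (f i))
      have h3 : (iso.symm.toMonoidHom.comp (FreeGroup.lift f)) =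
          FreeGroup.lift (fun i => iso.symm (f i)) := by
        ext1 i
        simp
      rw [← h3] at h2
      exact iso.symm.injective (h2.trans (map_one iso.symm).symm)
  refine ⟨HBL.SD (NFB.GamN (3 * (n + 1) + 3) (3 * (n + 1) + 3 + 2) × C13)
    (Fn C13 (gen (NFB.ff Al : FnP _ (ZMod 2)))), inferInstance, inferInstance,
    fun w hw hlw => h1 w hw ((htr w).1 hlw), w, (htr w).2 hw1, hw2⟩

end Pool.Agent.NFI
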